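import Mathlib
import Pool.Agent.H548.BK.Order

/-!
The number of rational points of bounded anticanonical height on complete intersections `X` of
`k ≥ 2` divisors of type `(1,1)` in the product of two projective spaces of dimension
`N - 1 ≥ k + 1` over the rational numbers: the order of magnitude `B log B` which is conjectured for
smooth `X` is a lower bound on every dense open subset.  If `X` is smooth and `N ≥ 2 k`, then
`B ^ (1 + ε)` is an upper bound on the open subset `U`.

* `M 0, …, M (k-1)`: integer `N × N` matrices, the bilinear forms `x ᵀ M i y`.
* `rv M x i = x ᵀ M i` and `cv M y i = M i y`: the coefficient vectors of the `k` linear forms in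
  the other variable.
* `Inc M x y`: the point `(x, y)` satisfies the `k` equations `x ᵀ M i y = 0`, which define `X`.
* `Smooth M`: at every complex point of `X` the gradients of the `k` equations are linearly
  independent.  This is assumed only for the upper bound.
* `FinZeros M`: the form `det (s₁ M₁ + ⋯ + s_k M_k)` has finitely many rational zeros (up to
  factors).  This is assumed only for the upper bound for `k ≥ 3`.
* `U`: the points `(x, y)` of `X` such that the `k` vectors `rv M x i` are linearly independent
  and the `k` vectors `cv M y i` are linearly independent.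
* `G` is a polynomial with integer coefficients in the coordinates of `x` and `y`; `evz G (two x y)`
  is its value, and `InV M G x y`: the point is in `U` and `G` does not vanish at it. For the lower
  bound it is assumed that there is such a complex point. (For smooth `X` every dense open subset
  contains the set `V` of these points for some bihomogeneous `G`.)
* `Rep v`: `v` is the normalised primitive integer representative of a rational point of a
  projective space (greatest common divisor of the coordinates `1`, first nonzero coordinate
  positive); `ht v` is its height, the maximum of the absolute values of the coordinates.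
* `Pts M G B` is the set of the rational points of `V` with `H(x) ^ (N - k) * H(y) ^ (N - k) ≤ B`
  (the anticanonical class of a smooth `X` is `(N - k, N - k)`).

The theorem: for `N ≥ k + 2` the set `Pts M G B` is finite, and if `G` does not vanish at some
complex point of `U`, then it has at least `c B log B` elements for all large `B`; if `X` is smooth
and `N ≥ 2 k`, then `U` is not empty, and `Pts M G B` has at most `C B ^ (1 + ε)` elements for all
`B ≥ 1`.
-/

namespace Pool.Agent.Results.MP_1acd66_nt.BilinearLowerOrder

open Pool.Agent.H548.BL (rv cv Inc Smooth FinZeros finZeros_two nonempty)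
open Pool.Agent.H548.BK
open Pool.Agent.H548.WM (ht Rep)

theorem result {k N : ℕ} (hk : 2 ≤ k) (hkN : k + 2 ≤ N)
    (M : Fin k → Matrix (Fin N) (Fin N) ℤ) :
    (∀ G : MvPolynomial (Fin N ⊕ Fin N) ℤ,
      (∀ B : ℝ, (Pts M G B).Finite) ∧
      ((∃ x y : Fin N → ℂ, InV M G x y) → ∃ c B₀ : ℝ, 0 < c ∧ ∀ B : ℝ, B₀ ≤ B →
        c * B * Real.log B ≤ ((Pts M G B).ncard : ℝ))) ∧
    (Smooth M → 2 * k ≤ N →
      (∃ x y : Fin N → ℂ, x ≠ 0 ∧ y ≠ 0 ∧ Inc M x y ∧
        LinearIndependent ℂ (rv M x) ∧ LinearIndependent ℂ (cv M y)) ∧
      ((3 ≤ k → FinZeros M) → ∀ G : MvPolynomial (Fin N ⊕ Fin N) ℤ, ∀ ε : ℝ, 0 < ε →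
        ∃ C : ℝ, ∀ B : ℝ, 1 ≤ B → ((Pts M G B).ncard : ℝ) ≤ C * B ^ (1 + ε))) := by
  refine ⟨fun G => ⟨finite_pts (by omega) M G, low (by omega) hkN⟩,
    fun hs h2 => ⟨nonempty hs (by omega) h2, fun hf G ε hε => ?_⟩⟩
  have hF : FinZeros M := by
    rcases hk.lt_or_eq with h | h
    · exact hf h
    · subst h
      exact finZeros_two hs
  exact up (by omega) h2 hs hF G ε hε

end Pool.Agent.Results.MP_1acd66_nt.BilinearLowerOrder
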