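import Mathlib
import Pool.Agent.H548.TL.Order

/-!
The number of rational points of bounded anticanonical height on all smooth divisors `X` of type
`(1,1,1)` in the product of three projective spaces of any dimensions `n1, n2, n3 ≥ 2` over the
rational numbers: the conjectured order of magnitude `B (log B) ^ 2` is a lower bound on every dense
open subset, and `B ^ (1 + ε)` is an upper bound on the open subset `U`.

* `tf T x y z` is the value at `(x, y, z)` of the trilinear form with integer coefficients `T`; the
  divisor `X` is given by `tf T x y z = 0`.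
* `g1 T y z`, `g2 T x z`, `g3 T x y` are the vectors of the partial derivatives of the form in the
  first, second and third argument.
* `Smooth T`: there is no complex point at which all partial derivatives vanish.
* `InU T x y z`: the open set `U` of the points of `X` at which none of the three vectors `g1 T y z`,
  `g2 T x z`, `g3 T x y` is zero.
* `G` is a polynomial with integer coefficients in the coordinates of `x`, `y`, `z`; `evz G (tri x y z)`
  is its value, and `InV T G x y z`: the point is in `U` and `G` does not vanish at it. It is assumed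
  that there is such a complex point. (Every dense open subset of `X` contains the set `V` of these
  points for some tri-homogeneous `G`.)
* `Rep v`: `v` is the normalised primitive integer representative of a rational point of a
  projective space (greatest common divisor of the coordinates `1`, first nonzero coordinate
  positive); `ht v` is its height, the maximum of the absolute values of the coordinates.
* `Pts T G B` is the set of the rational points of `V` with
  `H(x) ^ n1 * H(y) ^ n2 * H(z) ^ n3 ≤ B` (the anticanonical class of `X` is `(n1, n2, n3)`).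

The theorem: `U` is not empty; for every `G` the number of the points of `Pts T G B` is finite, at
least `c B (log B) ^ 2` for all large `B`, and at most `C B ^ (1 + ε)` for all `B ≥ 1`.
-/

namespace Pool.Agent.Results.MP_1acd66_nt.TrilinearLowerOrder

open Pool.Agent.H548.TL
open Pool.Agent.H548.WM (ht Rep)

theorem result {n1 n2 n3 : ℕ} (h1 : 2 ≤ n1) (h2 : 2 ≤ n2) (h3 : 2 ≤ n3)
    (T : Fin (n1 + 1) → Fin (n2 + 1) → Fin (n3 + 1) → ℤ) (hs : Smooth T) :
    (∃ (x : Fin (n1 + 1) → ℂ) (y : Fin (n2 + 1) → ℂ) (z : Fin (n3 + 1) → ℂ), InU T x y z) ∧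
    ∀ G : MvPolynomial (Fin (n1 + 1) ⊕ Fin (n2 + 1) ⊕ Fin (n3 + 1)) ℤ,
      (∃ (x : Fin (n1 + 1) → ℂ) (y : Fin (n2 + 1) → ℂ) (z : Fin (n3 + 1) → ℂ), InV T G x y z) →
      (∀ B : ℝ, 1 ≤ B → (Pts T G B).Finite) ∧
      (∃ c B₀ : ℝ, 0 < c ∧ ∀ B : ℝ, B₀ ≤ B →
        c * B * Real.log B ^ 2 ≤ ((Pts T G B).ncard : ℝ)) ∧
      ∀ ε : ℝ, 0 < ε → ∃ C : ℝ, ∀ B : ℝ, 1 ≤ B →
        ((Pts T G B).ncard : ℝ) ≤ C * B ^ (1 + ε) :=
  ⟨nonempty (by omega) (by omega) (by omega) hs, fun G hG => order h1 h2 h3 T hs G hG⟩

end Pool.Agent.Results.MP_1acd66_nt.TrilinearLowerOrder
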