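import Mathlib
import Pool.Agent.H548.TC.Ord

/-!
The order of magnitude of the number of rational points of bounded anticanonical height on the
blow-up `X` of the three-dimensional projective space along the twisted cubic over the rational
numbers (the Fano threefold of the family 2.27, of Picard number 2; it is a projective line bundle
over the plane, neither toric nor spherical).

* `Inc x y`: the point `(x, y)` of the product of the projective space and the projective plane
  satisfies the two equations `x₀ y₀ + x₁ y₁ + x₂ y₂ = 0` and `x₁ y₀ + x₂ y₁ + x₃ y₂ = 0`, which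
  define `X` as a smooth complete intersection of two divisors of type `(1,1)`.
* `hes x`: the three quadratic forms `x₁x₃ - x₂²`, `x₁x₂ - x₀x₃`, `x₀x₂ - x₁²`, which define the
  twisted cubic; `U` is the complement of the exceptional divisor, i.e. `hes x ≠ 0`.
* `Rep v`: `v` is the normalised primitive integer representative of a rational point of a
  projective space (greatest common divisor of the coordinates `1`, first nonzero coordinate
  positive); `ht v` is its height, the maximum of the absolute values of the coordinates.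
* The anticanonical height of `(x, y)` is `H(x) ^ 2 * H(y)` (`-K = (2,1)`).

The theorem: the number of rational points of `U` of anticanonical height at most `T` is finite and
lies between `c T log T` and `C T log T` for all large `T`.
-/

namespace Pool.Agent.Results.MP_1acd66_nt.TwistedCubicOrder

open Pool.Agent.H548.TC
open Pool.Agent.H548.WM (ht Rep)

theorem result : ∃ c C T₀ : ℝ, 0 < c ∧ 0 < C ∧ ∀ T : ℝ, T₀ ≤ T →
    {t : (Fin 4 → ℤ) × (Fin 3 → ℤ) | Rep t.1 ∧ Rep t.2 ∧ Inc t.1 t.2 ∧ hes t.1 ≠ 0 ∧
      (ht t.1 : ℝ) ^ 2 * (ht t.2 : ℝ) ≤ T}.Finite ∧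
    c * T * Real.log T ≤
      ({t : (Fin 4 → ℤ) × (Fin 3 → ℤ) | Rep t.1 ∧ Rep t.2 ∧ Inc t.1 t.2 ∧ hes t.1 ≠ 0 ∧
        (ht t.1 : ℝ) ^ 2 * (ht t.2 : ℝ) ≤ T}.ncard : ℝ) ∧
    ({t : (Fin 4 → ℤ) × (Fin 3 → ℤ) | Rep t.1 ∧ Rep t.2 ∧ Inc t.1 t.2 ∧ hes t.1 ≠ 0 ∧
      (ht t.1 : ℝ) ^ 2 * (ht t.2 : ℝ) ≤ T}.ncard : ℝ) ≤ C * T * Real.log T :=
  order

end Pool.Agent.Results.MP_1acd66_nt.TwistedCubicOrder
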